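import Mathlib

/-! A closed form for the partial sums of (3k+1) C(2k,k)^3 / 16^k by divided differences. -/

namespace Pool.Agent.MP_54d89f_nt.Dv

open Finset

variable {K : Type*} [Field K] [CharZero K]

/-- half of a divided difference on the odd nodes -/
def DD (k : ℕ) (f : K → K) : K :=
  ∑ j ∈ range (k + 1), (-1) ^ j * ((2 * k + 1).choose j : ℕ) * f (2 * k + 1 - 2 * j)

/-- product over the squares from zero -/
def YY (n : ℕ) (l : K) : K := ∏ i ∈ range n, (l ^ 2 - (i : K) ^ 2)

/-- product over the squares from one -/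
def ZZ (n : ℕ) (l : K) : K := ∏ i ∈ range n, (l ^ 2 - ((i : K) + 1) ^ 2)

/-- falling factorial -/
def fall (x : K) (n : ℕ) : K := ∏ i ∈ range n, (x - i)

/-- product of odd steps -/
def odf (x : K) (k : ℕ) : K := ∏ i ∈ range k, (x - 2 * i)

/-- the value of the divided difference -/
def ee (n k : ℕ) : K :=
  2 ^ k * (n.factorial : ℕ) * fall (2 * (k : K) + 1) n * odf (2 * (n : K) - 1) k /
    (k.factorial : ℕ)

/-- the partial sum -/
def SS (K : Type*) [Field K] (N : ℕ) : K :=
  ∑ k ∈ range N, (3 * k + 1) * ((2 * k).choose k : ℕ) ^ 3 / 16 ^ k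

omit [CharZero K] in
theorem DD_lin (k : ℕ) (f g h : K → K) (c : K) (e : ∀ l, f l = g l + c * h l) :
    DD k f = DD k g + c * DD k h := by
  unfold DD
  rw [mul_sum, ← sum_add_distrib]
  exact sum_congr rfl fun j _ => by rw [e]; ring

omit [CharZero K] in
theorem DD_zero (f : K → K) : DD 0 f = f 1 := by simp [DD]

omit [CharZero K] in
theorem DD_step (k : ℕ) (f : K → K) :
    DD (k + 1) (fun l => (l ^ 2 - (2 * k + 3) ^ 2) * f l) = 8 * (k + 1) * (2 * k + 3) * DD k f := by
  unfold DD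
  rw [sum_range_succ', mul_sum]
  have h0 : ((2 * ((k + 1 : ℕ) : K) + 1 - 2 * ((0 : ℕ) : K)) ^ 2 - (2 * k + 3) ^ 2) = 0 := by
    push_cast; ring
  simp only [h0, zero_mul, mul_zero, add_zero]
  refine sum_congr rfl fun j hj => ?_
  have hj' : j ≤ 2 * k + 2 := by have := mem_range.1 hj; omega
  have h1 := congrArg (fun x : ℕ => (x : K)) (Nat.add_one_mul_choose_eq (2 * k + 2) j)
  have h2 := congrArg (fun x : ℕ => (x : K)) (Nat.choose_mul_succ_eq (2 * k + 1) j)
  simp only [show 2 * k + 1 + 1 = 2 * k + 2 by ring, Nat.cast_mul, Nat.cast_sub hj'] at h1 h2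
  rw [show 2 * (k + 1) + 1 = 2 * k + 2 + 1 by ring,
    show (2 * ((k + 1 : ℕ) : K) + 1 - 2 * ((j + 1 : ℕ) : K)) = 2 * k + 1 - 2 * j by push_cast; ring]
  push_cast at h1 h2 ⊢
  linear_combination (-(4 : K) * (-1) ^ j * f (2 * k + 1 - 2 * j) * (2 * k + 2 - j)) * h1 +
    (-(4 : K) * (-1) ^ j * f (2 * k + 1 - 2 * j) * (2 * k + 3)) * h2

omit [CharZero K] in
theorem fall_succ (x : K) (n : ℕ) : fall x (n + 1) = fall x n * (x - n) := prod_range_succ _ _

omit [CharZero K] in
theorem fall_succ' (x : K) (n : ℕ) : fall (x + 1) (n + 1) = (x + 1) * fall x n := by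
  unfold fall
  rw [prod_range_succ', mul_comm]
  congr 1
  · simp
  · exact prod_congr rfl fun i _ => by push_cast; ring

omit [CharZero K] in
theorem fall_shift (x : K) (n : ℕ) : fall (x + 1) n * (x + 1 - n) = (x + 1) * fall x n := by
  rw [← fall_succ, fall_succ']

omit [CharZero K] in
theorem odf_succ (x : K) (n : ℕ) : odf x (n + 1) = odf x n * (x - 2 * n) := prod_range_succ _ _

omit [CharZero K] in
theorem odf_succ' (x : K) (n : ℕ) : odf (x + 2) (n + 1) = (x + 2) * odf x n := by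
  unfold odf
  rw [prod_range_succ', mul_comm]
  congr 1
  · simp
  · exact prod_congr rfl fun i _ => by push_cast; ring

theorem fact_ne (n : ℕ) : ((n.factorial : ℕ) : K) ≠ 0 := by exact_mod_cast n.factorial_ne_zero

omit [CharZero K] in
theorem cb_succ (n : ℕ) : ((n : K) + 1) * ((2 * (n + 1)).choose (n + 1) : ℕ) =
    2 * (2 * n + 1) * ((2 * n).choose n : ℕ) := by
  have := congrArg (fun x : ℕ => (x : K)) (Nat.succ_mul_centralBinom_succ n)
  simpa [Nat.centralBinom] using this

omit [CharZero K] in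
theorem odf_neg (k : ℕ) : (2 : K) ^ k * odf (-1) k =
    (-1) ^ k * ((2 * k).choose k : ℕ) * (k.factorial : ℕ) := by
  induction k with
  | zero => simp [odf]
  | succ k ih =>
    rw [odf_succ, Nat.factorial_succ]
    have := cb_succ (K := K) k
    push_cast
    linear_combination (2 * (-1 - 2 * k)) * ih + ((-1) ^ k * (k.factorial : ℕ)) * this

omit [CharZero K] in
theorem odf_pos (k : ℕ) : (2 : K) ^ k * odf (2 * (k : K) - 1) k =
    ((2 * k).choose k : ℕ) * (k.factorial : ℕ) := by
  induction k with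
  | zero => simp [odf]
  | succ k ih =>
    rw [show (2 * ((k + 1 : ℕ) : K) - 1) = 2 * k - 1 + 2 by push_cast; ring, odf_succ',
      Nat.factorial_succ]
    have := cb_succ (K := K) k
    push_cast
    linear_combination (2 * (2 * k + 1)) * ih - ((k.factorial : ℕ)) * this

omit [CharZero K] in
theorem fall_nat (m n : ℕ) : fall (m : K) n = (m.choose n : ℕ) * (n.factorial : ℕ) := by
  induction n with
  | zero => simp [fall]
  | succ n ih =>
    rw [fall_succ, ih, Nat.factorial_succ]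
    rcases le_or_gt n m with h | h
    · have := congrArg (fun x : ℕ => (x : K)) (Nat.choose_succ_right_eq m n)
      simp only [Nat.cast_mul, Nat.cast_sub h] at this
      push_cast at this ⊢
      linear_combination (-(n.factorial : ℕ) : K) * this
    · rw [Nat.choose_eq_zero_of_lt h, Nat.choose_eq_zero_of_lt (by omega : m < n + 1)]
      simp

theorem ee_ratio (n k : ℕ) : (ee n (k + 1) : K) * ((2 * k + 3 - n) * (2 * k + 2 - n)) =
    4 * (2 * k + 3) * (2 * n - 1 - 2 * k) * ee n k := by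
  unfold ee
  have h1 := fall_shift (2 * (k : K) + 1) n
  have h2 := fall_shift (2 * (k : K) + 1 + 1) n
  have h3 := fact_ne (K := K) k
  have h4 : (k : K) + 1 ≠ 0 := Nat.cast_add_one_ne_zero k
  rw [show (2 * ((k + 1 : ℕ) : K) + 1) = 2 * k + 1 + 1 + 1 by push_cast; ring, odf_succ,
    Nat.factorial_succ]
  push_cast
  generalize odf (2 * (n : K) - 1) k = o
  generalize fall (2 * (k : K) + 1 + 1 + 1) n = f3 at *
  generalize fall (2 * (k : K) + 1 + 1) n = f2 at *
  generalize fall (2 * (k : K) + 1) n = f1 at *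
  field_simp
  linear_combination (2 ^ k * 2 * (n.factorial : ℕ) * o * (2 * n - 1 - 2 * k) *
    (2 * k + 2 - n)) * h2 + (2 ^ k * 2 * (n.factorial : ℕ) * o *
    (2 * n - 1 - 2 * k) * (2 * k + 3)) * h1

theorem ee_rec (n k : ℕ) : (ee (n + 1) (k + 1) : K) =
    8 * (k + 1) * (2 * k + 3) * ee n k + ((2 * k + 3) ^ 2 - n ^ 2) * ee n (k + 1) := by
  unfold ee
  have h1 := fall_shift (2 * (k : K) + 1) n
  have h2 := fall_shift (2 * (k : K) + 1 + 1) n
  have h3 := fact_ne (K := K) k
  have h4 : (k : K) + 1 ≠ 0 := Nat.cast_add_one_ne_zero k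
  rw [show (2 * ((k + 1 : ℕ) : K) + 1) = 2 * k + 1 + 1 + 1 by push_cast; ring,
    show (2 * ((n + 1 : ℕ) : K) - 1) = 2 * n - 1 + 2 by push_cast; ring, odf_succ', odf_succ,
    fall_succ, Nat.factorial_succ, Nat.factorial_succ]
  push_cast
  generalize odf (2 * (n : K) - 1) k = o
  generalize fall (2 * (k : K) + 1 + 1 + 1) n = f3 at *
  generalize fall (2 * (k : K) + 1 + 1) n = f2 at *
  generalize fall (2 * (k : K) + 1) n = f1 at *
  field_simp
  linear_combination (2 ^ k * 4 * (k + 1) * (n.factorial : ℕ) * o *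
    (2 * k + 2 - n)) * h2 + (2 ^ k * 4 * (k + 1) * (n.factorial : ℕ) * o *
    (2 * k + 3)) * h1

theorem DD_YY (n k : ℕ) : DD k (YY n : K → K) = ee n k := by
  induction n generalizing k with
  | zero =>
    have h := Int.alternating_sum_range_choose_eq_choose (n := 2 * k) (m := k)
    have h' := congrArg (fun x : ℤ => (x : K)) h
    have h1 := odf_neg (K := K) k
    have h3 := fact_ne (K := K) k
    simp only [Int.cast_sum, Int.cast_mul, Int.cast_pow, Int.cast_neg, Int.cast_one,
      Int.cast_natCast] at h'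
    simp only [DD, YY, ee, fall, range_zero, prod_empty, mul_one, Nat.factorial_zero, Nat.cast_one,
      Nat.cast_zero, mul_zero, zero_sub]
    rw [h', h1]
    field_simp
  | succ n ih =>
    cases k with
    | zero =>
      have := ih 0
      rw [DD_zero] at this ⊢
      rw [YY, prod_range_succ, ← YY, this]
      simp only [ee, odf, range_zero, prod_empty, fall_succ, Nat.factorial_succ]
      push_cast
      ring
    | succ k =>
      rw [DD_lin (K := K) (k + 1) (YY (n + 1)) (fun l => (l ^ 2 - (2 * k + 3) ^ 2) * YY n l) (YY n)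
        ((2 * k + 3) ^ 2 - n ^ 2) (fun l => by rw [YY, prod_range_succ, ← YY]; ring),
        DD_step, ih, ih, ee_rec]

omit [CharZero K] in
theorem YY_succ (n : ℕ) (l : K) : YY (n + 1) l = l ^ 2 * ZZ n l := by
  unfold YY ZZ
  rw [prod_range_succ', mul_comm]
  congr 1
  · simp
  · exact prod_congr rfl fun i _ => by push_cast; ring

theorem DZ_k (n k : ℕ) : (2 * (k : K) + 3) ^ 2 * DD (k + 1) (ZZ n : K → K) =
    ee (n + 1) (k + 1) - 8 * (k + 1) * (2 * k + 3) * DD k (ZZ n) := by
  rw [← DD_YY, ← DD_step, DD_lin (K := K) (k + 1) (YY (n + 1))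
    (fun l => (l ^ 2 - (2 * k + 3) ^ 2) * ZZ n l) (ZZ n) ((2 * k + 3) ^ 2)
    (fun l => by rw [YY_succ]; ring)]
  ring

theorem DZ_n (n k : ℕ) : DD k (ZZ (n + 1) : K → K) =
    ee (n + 1) k - ((n : K) + 1) ^ 2 * DD k (ZZ n) := by
  rw [← DD_YY, DD_lin (K := K) k (ZZ (n + 1)) (YY (n + 1)) (ZZ n) (-((n : K) + 1) ^ 2)
    (fun l => by rw [YY_succ, ZZ, prod_range_succ, ← ZZ]; ring)]
  ring

theorem ee_diag (m : ℕ) : (ee m m : K) * (m + 1) =
    (2 * m + 1) * ((2 * m).choose m : ℕ) ^ 2 * (m.factorial : ℕ) ^ 2 := by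
  have h1 := odf_pos (K := K) m
  have h2 := fall_shift (2 * (m : K)) m
  have h3 := fall_nat (K := K) (2 * m) m
  have h4 := fact_ne (K := K) m
  push_cast at h3
  unfold ee
  rw [h3] at h2
  generalize odf (2 * (m : K) - 1) m = o at *
  generalize fall (2 * (m : K) + 1) m = f at *
  field_simp
  linear_combination (f * (m + 1)) * h1 +
    (((2 * m).choose m : ℕ) * (m.factorial : ℕ)) * h2

/-- the integer in the closed form -/
def AA (K : Type*) [Field K] (n : ℕ) : K := DD n (ZZ n : K → K) / (n.factorial : ℕ) ^ 2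

theorem AA_rec (n : ℕ) : (2 * (n : K) + 3) * AA K (n + 1) =
    8 * (n + 1) * AA K n + (3 * n + 4) * ((2 * (n + 1)).choose (n + 1) : ℕ) ^ 2 := by
  have h1 := DZ_k (K := K) n n
  have h2 := DZ_n (K := K) n (n + 1)
  have h3 := ee_diag (K := K) (n + 1)
  have h4 := fact_ne (K := K) n
  have h5 : (n : K) + 1 ≠ 0 := Nat.cast_add_one_ne_zero n
  have h7 : 2 * (n : K) + 3 ≠ 0 := by exact_mod_cast (by omega : 2 * n + 3 ≠ 0)
  unfold AA
  rw [Nat.factorial_succ] at h3 ⊢
  push_cast at h3 ⊢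
  have key : (2 * (n : K) + 3) * DD (n + 1) (ZZ (n + 1) : K → K) =
      8 * (n + 1) ^ 3 * DD n (ZZ n) + (3 * n + 4) * ((2 * (n + 1)).choose (n + 1) : ℕ) ^ 2 *
        ((n + 1) * (n.factorial : ℕ)) ^ 2 := by
    apply mul_left_cancel₀ h7
    linear_combination (2 * n + 3) ^ 2 * h2 - ((n : K) + 1) ^ 2 * h1 + (3 * n + 4) * h3
  field_simp
  linear_combination key

theorem closed_form (n : ℕ) : 2 * 16 ^ n * SS K (n + 1) =
    ((n : K) + 1) * ((2 * (n + 1)).choose (n + 1) : ℕ) * AA K n := by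
  induction n with
  | zero => simp [SS, AA, DD_zero, ZZ]
  | succ n ih =>
    have h1 := AA_rec (K := K) n
    have h2 := cb_succ (K := K) (n + 1)
    rw [SS, sum_range_succ, ← SS]
    have h3 : (16 : K) ^ (n + 1) ≠ 0 := pow_ne_zero _ (by norm_num)
    push_cast at h2 ⊢
    rw [h2, mul_add, mul_assoc (2 : K) (16 ^ (n + 1)) (_ / _), mul_div_cancel₀ _ h3]
    linear_combination 16 * ih - 2 * ((2 * (n + 1)).choose (n + 1) : ℕ) * h1

omit [CharZero K] in
theorem ZZ_nat (n l : ℕ) : (ZZ n ((l : K) + 1)) =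
    (l.choose n : ℕ) * ((l + 1 + n).choose n : ℕ) * (n.factorial : ℕ) ^ 2 := by
  have h1 : ∀ n : ℕ, ∏ i ∈ range n, ((l : K) + 2 + i) =
      ((l + 1 + n).choose n : ℕ) * (n.factorial : ℕ) := by
    intro n
    induction n with
    | zero => simp
    | succ n ih =>
      have := congrArg (fun x : ℕ => (x : K)) (Nat.add_one_mul_choose_eq (l + 1 + n) n)
      rw [prod_range_succ, ih, Nat.factorial_succ, ← add_assoc]
      push_cast at this ⊢
      linear_combination ((n.factorial : ℕ) : K) * this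
  have h2 : ZZ n ((l : K) + 1) = fall (l : K) n * ∏ i ∈ range n, ((l : K) + 2 + i) := by
    unfold ZZ fall
    rw [← prod_mul_distrib]
    exact prod_congr rfl fun i _ => by ring
  rw [h2, h1, fall_nat]
  ring

/-- the same integer -/
def AZ (n : ℕ) : ℤ := ∑ j ∈ range (n + 1), (-1) ^ j * ((2 * n + 1).choose j : ℕ) *
  (((2 * n - 2 * j).choose n : ℕ) * ((2 * n - 2 * j + 1 + n).choose n : ℕ))

theorem AA_int (n : ℕ) : AA K n = (AZ n : K) := by
  have h4 := fact_ne (K := K) n
  unfold AA AZ DD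
  push_cast
  rw [sum_div]
  refine sum_congr rfl fun j hj => ?_
  have hj' : 2 * j ≤ 2 * n := by have := mem_range.1 hj; omega
  have : (2 * n + 1 - 2 * j : K) = ((2 * n - 2 * j : ℕ) : K) + 1 := by
    rw [Nat.cast_sub hj']; push_cast; ring
  rw [this, ZZ_nat]
  field_simp

end Pool.Agent.MP_54d89f_nt.Dv
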