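import Mathlib

/-! Order of vanishing at p in the p-adic numbers, and two ways to split a sum over an odd range. -/

namespace Pool.Agent.MP_54d89f_nt

open Finset

variable {p : ℕ} [hp : Fact p.Prime]

/-- `x` is divisible by `p ^ k` in the p-adic integers -/
def OP (p : ℕ) [Fact p.Prime] (k : ℕ) (x : ℚ_[p]) : Prop := ‖x‖ ≤ ‖(p : ℚ_[p])‖ ^ k

namespace OP

theorem p_ne : (p : ℚ_[p]) ≠ 0 := by exact_mod_cast hp.out.ne_zero

theorem np_pos : 0 < ‖(p : ℚ_[p])‖ := norm_pos_iff.mpr p_ne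

theorem np_le : ‖(p : ℚ_[p])‖ ≤ 1 := (Padic.norm_p_lt_one (p := p)).le

theorem zero (k : ℕ) : OP p k 0 := by
  unfold OP; simp

theorem add {k : ℕ} {x y : ℚ_[p]} (hx : OP p k x) (hy : OP p k y) : OP p k (x + y) :=
  (Padic.nonarchimedean x y).trans (max_le hx hy)

theorem neg {k : ℕ} {x : ℚ_[p]} (hx : OP p k x) : OP p k (-x) := by
  unfold OP at *; rwa [norm_neg]

theorem sub {k : ℕ} {x y : ℚ_[p]} (hx : OP p k x) (hy : OP p k y) : OP p k (x - y) := by
  rw [sub_eq_add_neg]; exact hx.add hy.neg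

theorem mul {k l : ℕ} {x y : ℚ_[p]} (hx : OP p k x) (hy : OP p l y) : OP p (k + l) (x * y) := by
  unfold OP at *
  rw [norm_mul, pow_add]
  exact mul_le_mul hx hy (norm_nonneg _) (by positivity)

theorem mulr {k : ℕ} {x y : ℚ_[p]} (hx : OP p k x) (hy : OP p 0 y) : OP p k (x * y) := hx.mul hy

theorem mull {k : ℕ} {x y : ℚ_[p]} (hx : OP p 0 x) (hy : OP p k y) : OP p k (x * y) := by
  rw [mul_comm]; exact hy.mul hx

theorem mono {k l : ℕ} {x : ℚ_[p]} (hx : OP p k x) (h : l ≤ k) : OP p l x :=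
  le_trans hx (pow_le_pow_of_le_one np_pos.le np_le h)

theorem sum {ι : Type*} {k : ℕ} (s : Finset ι) (f : ι → ℚ_[p]) (h : ∀ i ∈ s, OP p k (f i)) :
    OP p k (∑ i ∈ s, f i) :=
  Finset.sum_induction f (OP p k) (fun _ _ => add) (zero k) h

theorem one : OP p 0 1 := by unfold OP; simp

theorem pow {x : ℚ_[p]} (hx : OP p 0 x) (e : ℕ) : OP p 0 (x ^ e) := by
  induction e with
  | zero => simpa using one
  | succ e ih => rw [pow_succ]; exact ih.mulr hx

theorem prod {ι : Type*} (s : Finset ι) (f : ι → ℚ_[p]) (h : ∀ i ∈ s, OP p 0 (f i)) :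
    OP p 0 (∏ i ∈ s, f i) :=
  Finset.prod_induction f (OP p 0) (fun _ _ => mulr) one h

theorem int (z : ℤ) : OP p 0 (z : ℚ_[p]) := by
  unfold OP; simpa using Padic.norm_int_le_one z

theorem nat (n : ℕ) : OP p 0 (n : ℚ_[p]) := by
  simpa using int (p := p) (n : ℤ)

theorem ofNat (n : ℕ) [n.AtLeastTwo] : OP p 0 (OfNat.ofNat n : ℚ_[p]) := by
  simpa using nat (p := p) (OfNat.ofNat n)

theorem ppow (k : ℕ) : OP p k ((p : ℚ_[p]) ^ k) := by
  unfold OP; rw [norm_pow]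

theorem self : OP p 1 (p : ℚ_[p]) := by simpa using ppow (p := p) 1

theorem norm_nat {n : ℕ} (h : ¬ p ∣ n) : ‖(n : ℚ_[p])‖ = 1 := by
  rw [Padic.norm_natCast_eq_one_iff]
  exact (Nat.Prime.coprime_iff_not_dvd hp.out).mpr h

theorem nat_ne {n : ℕ} (h : ¬ p ∣ n) : (n : ℚ_[p]) ≠ 0 := by
  rw [← norm_pos_iff, norm_nat h]; exact one_pos

theorem inv_of_norm {x : ℚ_[p]} (h : ‖x‖ = 1) : OP p 0 x⁻¹ := by
  unfold OP; simp [h]

theorem inv_nat {n : ℕ} (h : ¬ p ∣ n) : OP p 0 (n : ℚ_[p])⁻¹ := inv_of_norm (norm_nat h)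

theorem congr {k : ℕ} {x y : ℚ_[p]} (hx : OP p k x) (h : x = y) : OP p k y := h ▸ hx

theorem of_p_mul {k : ℕ} {x : ℚ_[p]} (h : OP p (k + 1) (p * x)) : OP p k x := by
  unfold OP at *
  rw [norm_mul, pow_succ, mul_comm] at h
  exact le_of_mul_le_mul_right h np_pos

theorem of_ppow_mul {k l : ℕ} {x : ℚ_[p]} (h : OP p (k + l) ((p : ℚ_[p]) ^ l * x)) :
    OP p k x := by
  unfold OP at *
  rw [norm_mul, norm_pow, pow_add, mul_comm] at h
  exact le_of_mul_le_mul_right h (pow_pos np_pos _)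

theorem of_dvd {k : ℕ} {z : ℤ} (h : (p : ℤ) ^ k ∣ z) : OP p k (z : ℚ_[p]) := by
  obtain ⟨w, rfl⟩ := h
  push_cast
  exact (ppow k).mulr (int w)

theorem inv2 (h5 : 5 ≤ p) : OP p 0 (2 : ℚ_[p])⁻¹ := by
  have := inv_nat (p := p) (n := 2) (fun h => by have := Nat.le_of_dvd (by norm_num) h; omega)
  simpa using this

theorem inv3 (h5 : 5 ≤ p) : OP p 0 (3 : ℚ_[p])⁻¹ := by
  have := inv_nat (p := p) (n := 3) (fun h => by have := Nat.le_of_dvd (by norm_num) h; omega)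
  simpa using this

theorem norm_one_add {x : ℚ_[p]} (h : OP p 1 (x - 1)) : ‖x‖ = 1 := by
  have h1 : ‖x - 1‖ < 1 := by
    have := h; unfold OP at this
    rw [pow_one] at this
    exact lt_of_le_of_lt this Padic.norm_p_lt_one
  have : x = 1 + (x - 1) := by ring
  rw [this, Padic.add_eq_max_of_ne (by rw [norm_one]; exact h1.ne')]
  rw [norm_one]; exact max_eq_left h1.le

/-- Fermat -/
theorem fermat {n : ℕ} (h : ¬ p ∣ n) : OP p 1 ((n : ℚ_[p]) ^ (p - 1) - 1) := by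
  have h1 : (n : ℤ) ^ (p - 1) ≡ 1 [ZMOD p] :=
    Int.ModEq.pow_card_sub_one_eq_one hp.out
      (by rw [Nat.isCoprime_iff_coprime]; exact ((Nat.Prime.coprime_iff_not_dvd hp.out).mpr h).symm)
  have h2 : (p : ℤ) ^ 1 ∣ (n : ℤ) ^ (p - 1) - 1 := by simpa using h1.symm.dvd
  simpa using of_dvd h2

/-- first order Taylor expansion of a power -/
theorem taylor {c t : ℚ_[p]} (hc : OP p 0 c) (ht : OP p 1 t) (e : ℕ) :
    OP p 2 ((c + t) ^ (e + 1) - c ^ (e + 1) - (e + 1) * t * c ^ e) := by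
  induction e with
  | zero => exact (zero 2).congr (by simp)
  | succ e ih =>
    have h1 : OP p 0 (c + t) := hc.add (ht.mono (by norm_num))
    have h2 : OP p 2 (t * t * ((e + 1) * c ^ e)) :=
      (ht.mul ht).mulr (((nat e).add one).mulr (hc.pow e))
    exact ((ih.mulr h1).add h2).congr (by push_cast; ring)

theorem pow_sub {k : ℕ} {x y : ℚ_[p]} (hx : OP p 0 x) (hy : OP p 0 y) (h : OP p k (x - y))
    (e : ℕ) : OP p k (x ^ e - y ^ e) := by
  induction e with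
  | zero => exact (zero k).congr (by simp)
  | succ e ih => exact ((ih.mulr hx).add (h.mulr (hy.pow e))).congr (by ring)

end OP

theorem split_c {K : Type*} [AddCommMonoid K] (g : ℕ → K) (h : ℕ) :
    ∑ l ∈ Ico (h + 1) (2 * h + 1), g l = ∑ i ∈ Ico 1 (h + 1), g (2 * h + 1 - i) := by
  refine sum_nbij' (fun l => 2 * h + 1 - l) (fun i => 2 * h + 1 - i) ?_ ?_ ?_ ?_ ?_
  all_goals intro a ha; simp only [mem_Ico] at *
  · omega
  · omega
  · omega
  · omega
  · congr 1; omega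

theorem split_a {K : Type*} [AddCommMonoid K] (g : ℕ → K) (h : ℕ) :
    ∑ j ∈ Ico 1 (2 * h + 1), g j = ∑ i ∈ Ico 1 (h + 1), (g i + g (2 * h + 1 - i)) := by
  rw [sum_add_distrib, ← split_c, sum_Ico_consecutive _ (by omega) (by omega)]

theorem split_b {K : Type*} [AddCommMonoid K] (g : ℕ → K) (h : ℕ) :
    ∑ j ∈ Ico 1 (2 * h + 1), g j = ∑ i ∈ Ico 1 (h + 1), (g (2 * i) + g (2 * h + 1 - 2 * i)) := by
  have h1 : ∑ i ∈ Ico 1 (h + 1), g (2 * h + 1 - 2 * i) = ∑ i ∈ Ico 1 (h + 1), g (2 * i - 1) := by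
    refine sum_nbij' (fun l => h + 1 - l) (fun i => h + 1 - i) ?_ ?_ ?_ ?_ ?_
    all_goals intro a ha; simp only [mem_Ico] at *
    · omega
    · omega
    · omega
    · omega
    · congr 1; omega
  rw [sum_add_distrib, h1, ← sum_add_distrib]
  clear h1
  induction h with
  | zero => simp
  | succ h ih =>
    rw [show 2 * (h + 1) + 1 = 2 * h + 1 + 1 + 1 by ring, sum_Ico_succ_top (by omega),
      sum_Ico_succ_top (by omega), ih, sum_Ico_succ_top (a := 1) (b := h + 1) (by omega),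
      show 2 * (h + 1) - 1 = 2 * h + 1 by omega, show 2 * (h + 1) = 2 * h + 1 + 1 by ring,
      add_assoc, add_comm (g (2 * h + 1))]

end Pool.Agent.MP_54d89f_nt
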