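import Pool.Agent.MP_54d89f_nt.DvA
import Pool.Agent.MP_54d89f_nt.HarmA

/-! The exact power of two in the partial sums. -/

namespace Pool.Agent.MP_54d89f_nt.Dv

open Finset

theorem ee_sub {K : Type*} [Field K] [CharZero K] (n : ℕ) : 4 * (ee (n + 1) n : K) =
    ((n : K) + 1) ^ 3 * ((2 * (n + 1)).choose (n + 1) : ℕ) ^ 2 * (n.factorial : ℕ) ^ 2 := by
  have h1 := ee_ratio (K := K) (n + 1) n
  have h2 := ee_diag (K := K) (n + 1)
  have h7 : 2 * (n : K) + 3 ≠ 0 := by exact_mod_cast (by omega : 2 * n + 3 ≠ 0)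
  rw [Nat.factorial_succ] at h2
  push_cast at h1 h2
  apply mul_left_cancel₀ h7
  linear_combination ((n : K) + 1) * h2 - h1

theorem two_mul_OP {x : ℚ_[2]} (hx : OP 2 0 x) : OP 2 1 (2 * x) := by
  have := (OP.self (p := 2)).mulr hx
  simpa using this

theorem unit_two (n k : ℕ) : ∃ u : ℚ_[2], ‖u‖ = 1 ∧ DD k (ZZ n) = ee (n + 1) k * u := by
  induction k with
  | zero => exact ⟨1, norm_one, by rw [← DD_YY, DD_zero, DD_zero, YY_succ]; ring⟩
  | succ k ih =>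
    obtain ⟨u, hu, e⟩ := ih
    have hu0 : OP 2 0 u := by simp [OP, hu]
    have h1 := DZ_k (K := ℚ_[2]) n k
    have h2 := ee_ratio (K := ℚ_[2]) (n + 1) k
    have n1 : ‖(2 * (k : ℚ_[2]) + 3)‖ = 1 :=
      OP.norm_one_add ((two_mul_OP ((OP.nat k).add OP.one)).congr (by ring))
    have n2 : ‖(2 * (n : ℚ_[2]) + 1 - 2 * k)‖ = 1 :=
      OP.norm_one_add ((two_mul_OP ((OP.nat n).sub (OP.nat k))).congr (by ring))
    have z1 : (2 * (k : ℚ_[2]) + 3) ≠ 0 := by rw [← norm_pos_iff, n1]; exact one_pos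
    have z2 : (2 * (n : ℚ_[2]) + 1 - 2 * k) ≠ 0 := by rw [← norm_pos_iff, n2]; exact one_pos
    have hk := (OP.ofNat (p := 2) 2).mulr (OP.nat k)
    have n3 : ‖1 - 2 * (((k : ℚ_[2]) + 1) * ((2 * k + 2 - n) * (2 * k + 1 - n)) * u *
        (2 * (n : ℚ_[2]) + 1 - 2 * k)⁻¹)‖ = 1 :=
      OP.norm_one_add ((two_mul_OP (((((OP.nat k).add OP.one).mulr
        (((hk.add (OP.ofNat 2)).sub (OP.nat n)).mulr ((hk.add OP.one).sub (OP.nat n)))).mulr
        hu0).mulr (OP.inv_of_norm n2))).neg.congr (by ring))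
    refine ⟨(1 - 2 * (((k : ℚ_[2]) + 1) * ((2 * k + 2 - n) * (2 * k + 1 - n)) * u *
        (2 * (n : ℚ_[2]) + 1 - 2 * k)⁻¹)) / (2 * (k : ℚ_[2]) + 3) ^ 2, ?_, ?_⟩
    · rw [norm_div, n3, norm_pow, n1]; simp
    · rw [e] at h1
      push_cast at h2
      generalize DD (k + 1) (ZZ n : ℚ_[2] → ℚ_[2]) = w at *
      generalize (ee (n + 1) (k + 1) : ℚ_[2]) = e1 at *
      generalize (ee (n + 1) k : ℚ_[2]) = e0 at *
      field_simp
      linear_combination (2 * (n : ℚ_[2]) + 1 - 2 * k) * h1 + 2 * (k + 1) * u * h2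

theorem T_eq (n : ℕ) : 2 * ((∑ k ∈ range (n + 1), (3 * k + 1) * ((2 * k).choose k) ^ 3 *
    16 ^ (n - k) : ℕ) : ℤ) = ((n + 1) * (2 * (n + 1)).choose (n + 1) : ℕ) * AZ n := by
  have h := closed_form (K := ℚ) n
  rw [AA_int, mul_assoc, SS, mul_sum] at h
  have h1 : ∑ k ∈ range (n + 1), (16 : ℚ) ^ n * ((3 * k + 1) * ((2 * k).choose k : ℕ) ^ 3 / 16 ^ k) =
      ∑ k ∈ range (n + 1), (3 * k + 1) * ((2 * k).choose k : ℕ) ^ 3 * (16 : ℚ) ^ (n - k) := by
    refine sum_congr rfl fun k hk => ?_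
    have : k ≤ n := by have := mem_range.1 hk; omega
    rw [pow_sub₀ _ (by norm_num) this]
    ring
  rw [h1] at h
  exact_mod_cast h

theorem norm_split {N : ℕ} (hN : N ≠ 0) :
    ‖(N : ℚ_[2])‖ = ‖((2 : ℕ) : ℚ_[2])‖ ^ padicValNat 2 N := by
  obtain ⟨k, m, hm, rfl⟩ := Nat.exists_eq_two_pow_mul_odd hN
  have h2 : ¬ 2 ∣ m := hm.not_two_dvd_nat
  rw [padicValNat.mul (by positivity) hm.pos.ne', padicValNat.prime_pow,
    padicValNat.eq_zero_of_not_dvd h2, Nat.cast_mul, norm_mul, OP.norm_nat h2, Nat.cast_pow,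
    norm_pow]
  simp

theorem val_choose (N : ℕ) (hN : 0 < N) :
    padicValNat 2 ((2 * N).choose N) = (Nat.digits 2 N).sum := by
  have h := sub_one_mul_padicValNat_choose_eq_sub_sum_digits' (p := 2) (k := N) (n := N)
  rw [← two_mul N, Nat.digits_base_mul (by norm_num) hN] at h
  simpa using h

theorem exp_ge (N : ℕ) (hN : 2 ≤ N) : 4 ≤ 2 * (Nat.digits 2 N).sum + 3 * padicValNat 2 N := by
  have hs : ∀ M : ℕ, 0 < M → 1 ≤ (Nat.digits 2 M).sum := fun M hM => by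
    rw [← val_choose M hM]
    exact one_le_padicValNat_of_dvd (Nat.choose_pos (by omega)).ne'
      (Nat.two_dvd_centralBinom_of_one_le hM)
  rcases Nat.even_or_odd' N with ⟨M, rfl | rfl⟩
  · have h1 := hs (2 * M) (by omega)
    have h2 : 1 ≤ padicValNat 2 (2 * M) := one_le_padicValNat_of_dvd (by omega) ⟨M, rfl⟩
    omega
  · have h1 := hs M (by omega)
    rw [Nat.digits_def' (by norm_num) (by omega), List.sum_cons,
      show (2 * M + 1) / 2 = M by omega]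
    omega

theorem sharp5 (n : ℕ) (hn : 2 ≤ n) : ∃ e m : ℕ, Odd m ∧
    e + 4 = 2 * (Nat.digits 2 n).sum + 3 * padicValNat 2 n ∧
    ∑ k ∈ range n, (3 * k + 1) * ((2 * k).choose k) ^ 3 * 16 ^ (n - 1 - k) =
      2 * n * (2 * n).choose n * (2 ^ e * m) := by
  have hge := exp_ge n hn
  obtain ⟨n, rfl⟩ : ∃ n', n = n' + 1 := ⟨n - 1, by omega⟩
  rw [Nat.add_sub_cancel]
  have hT := T_eq n
  set T := ∑ k ∈ range (n + 1), (3 * k + 1) * ((2 * k).choose k) ^ 3 * 16 ^ (n - k) with hTd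
  have hC : 0 < (2 * (n + 1)).choose (n + 1) := Nat.choose_pos (by omega)
  have hA0 : 0 ≤ AZ n := by
    by_contra h
    have h1 : (0 : ℤ) < ((n + 1) * (2 * (n + 1)).choose (n + 1) : ℕ) := by positivity
    have h2 := mul_neg_of_pos_of_neg h1 (not_le.1 h)
    omega
  obtain ⟨A, hA⟩ := Int.eq_ofNat_of_zero_le hA0
  obtain ⟨u, hu, e⟩ := unit_two n n
  have h1 := ee_sub (K := ℚ_[2]) n
  have h2 := AA_int (K := ℚ_[2]) n
  have h4 := fact_ne (K := ℚ_[2]) n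
  rw [hA, AA, e, Int.cast_natCast, div_eq_iff (pow_ne_zero 2 h4)] at h2
  have h3 : ((2 : ℕ) : ℚ_[2]) ^ 2 * A = ((n + 1 : ℕ) : ℚ_[2]) ^ 3 *
      ((2 * (n + 1)).choose (n + 1) : ℕ) ^ 2 * u := by
    apply mul_right_cancel₀ (pow_ne_zero 2 h4)
    push_cast
    linear_combination u * h1 - 4 * h2
  have hAne : A ≠ 0 := by
    rintro rfl
    have hu0 : u ≠ 0 := by rw [← norm_pos_iff, hu]; exact one_pos
    have : ((n + 1 : ℕ) : ℚ_[2]) ^ 3 * ((2 * (n + 1)).choose (n + 1) : ℕ) ^ 2 * u ≠ 0 :=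
      mul_ne_zero (mul_ne_zero (pow_ne_zero _ (by exact_mod_cast n.succ_ne_zero))
        (pow_ne_zero _ (by exact_mod_cast hC.ne'))) hu0
    exact this (by rw [← h3]; simp)
  have h5 := congrArg norm h3
  simp only [norm_mul, norm_pow, hu, mul_one] at h5
  rw [norm_split hAne, norm_split (n.succ_ne_zero), norm_split hC.ne', val_choose _ n.succ_pos,
    ← pow_add, ← pow_mul, ← pow_mul, ← pow_add] at h5
  have h6 := pow_right_injective₀ (OP.np_pos (p := 2)) (Padic.norm_p_lt_one (p := 2)).ne h5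
  obtain ⟨k, m, hm, hk⟩ := Nat.exists_eq_two_pow_mul_odd hAne
  have h7 : padicValNat 2 A = k := by
    rw [hk, padicValNat.mul (by positivity) hm.pos.ne', padicValNat.prime_pow,
      padicValNat.eq_zero_of_not_dvd hm.not_two_dvd_nat, add_zero]
  simp only [Nat.succ_eq_add_one] at h6
  obtain ⟨e', rfl⟩ : ∃ e', k = e' + 2 := ⟨k - 2, by omega⟩
  refine ⟨e', m, hm, by omega, ?_⟩
  rw [hA, hk] at hT
  have h8 : 2 * T = (n + 1) * (2 * (n + 1)).choose (n + 1) * (2 ^ (e' + 2) * m) := by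
    exact_mod_cast hT
  refine Nat.eq_of_mul_eq_mul_left two_pos (h8.trans ?_)
  ring

end Pool.Agent.MP_54d89f_nt.Dv
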